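import Mathlib
import Pool.Agent.Q230.SpiralArms

/-!
# Spiral markings of the square tiling exist for every number of arms

MP_ca213f_co, Q1: the square tiling `(4^4)` admits a marking making it an `n`-armed spiral
for **every** positive integer `n`.
-/

namespace Pool.Agent.Results.MP_ca213f_co.AllArmNumbers

open Set Filter Topology Q230.Spiral

/-- The tiles of `(4^4)`: the closed unit squares with integer lower left corner `z`. -/
def cell (z : ℤ × ℤ) : Set E2 :=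
  {p | (z.1:ℝ) ≤ p 0 ∧ p 0 ≤ z.1 + 1 ∧ (z.2:ℝ) ≤ p 1 ∧ p 1 ≤ z.2 + 1}

/-- An arc: a homeomorphic image of `[0,1]`. -/
def IsArc (A : Set E2) : Prop := Nonempty (A ≃ₜ Icc (0:ℝ) 1)

/-- A marking of the square tiling: a finite set of arcs in the prototile `T = cell (0,0)`,
together with a choice, for every tile, of an isometry of the plane carrying `T` to that tile. -/
structure Marking where
  arcs : Set (Set E2)
  finite : arcs.Finite
  isArc : ∀ A ∈ arcs, IsArc A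
  sub : ∀ A ∈ arcs, A ⊆ cell (0, 0)
  iso : ℤ × ℤ → (E2 ≃ᵢ E2)
  maps : ∀ z, iso z '' cell (0, 0) = cell z

/-- The set `U` marked in the plane. -/
def Marking.U (M : Marking) : Set E2 := ⋃ z, ⋃ A ∈ M.arcs, M.iso z '' A

/-- An unbounded simple curve: an unbounded set homeomorphic to `ℝ` or to `[0,∞)`. -/
def IsUnboundedSimpleCurve (C : Set E2) : Prop :=
  ¬ Bornology.IsBounded C ∧ (Nonempty (C ≃ₜ ℝ) ∨ Nonempty (C ≃ₜ Ici (0:ℝ)))

/-- The marked tiling is an `n`-armed spiral: the marked set is the union of `n` pairwise disjoint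
unbounded simple curves. -/
def Marking.IsSpiral (M : Marking) (n : ℕ) : Prop :=
  ∃ C : Fin n → Set E2, (∀ i, IsUnboundedSimpleCurve (C i)) ∧
    (∀ i j, i ≠ j → Disjoint (C i) (C j)) ∧ (∀ i, IsClosed (C i)) ∧ M.U = ⋃ i, C i

/-! ### The marking -/

/-- The bottom side of the prototile. -/
def bot : Set E2 := {p | p 1 = 0 ∧ 0 ≤ p 0 ∧ p 0 ≤ 1}

theorem bot_arc : IsArc bot := by
  refine ⟨⟨⟨fun p => ⟨p.1 0, p.2.2.1, p.2.2.2⟩, fun t => ⟨pt t.1 0, rfl, t.2.1, t.2.2⟩, ?_, ?_⟩, ?_, ?_⟩⟩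
  · rintro ⟨p, h1, h2, h3⟩
    apply Subtype.ext
    exact ext2 rfl h1.symm
  · rintro ⟨t, ht⟩
    rfl
  · have : Continuous fun p : bot => (p.1 : E2) 0 := by fun_prop
    exact this.subtype_mk _
  · have : Continuous fun t : Icc (0:ℝ) 1 => pt t.1 0 :=
      continuous_pt continuous_subtype_val continuous_const
    exact this.subtype_mk _

theorem bot_sub : bot ⊆ cell (0, 0) := by
  rintro p ⟨h1, h2, h3⟩
  simp only [cell, mem_ofPred_eq, Int.cast_zero]
  refine ⟨h2, by linarith, by linarith, by linarith⟩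

/-- The orientation preserving isometry `(x,y) ↦ (c x - s y + u, s x + c y + v)`. -/
noncomputable def rot (c s u v : ℝ) (h : c ^ 2 + s ^ 2 = 1) : E2 ≃ᵢ E2 :=
  IsometryEquiv.mk' (fun p => pt (c * p 0 - s * p 1 + u) (s * p 0 + c * p 1 + v))
    (fun p => pt (c * (p 0 - u) + s * (p 1 - v)) (-s * (p 0 - u) + c * (p 1 - v)))
    (by
      intro p
      apply ext2
      · simp only [pt_zero, pt_one]
        linear_combination (p 0 - u) * h
      · simp only [pt_zero, pt_one]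
        linear_combination (p 1 - v) * h)
    (by
      refine Isometry.of_dist_eq fun p q => ?_
      rw [EuclideanSpace.dist_eq, EuclideanSpace.dist_eq]
      congr 1
      simp only [Fin.sum_univ_two, pt_zero, pt_one, Real.dist_eq, sq_abs]
      linear_combination ((p 0 - q 0)^2 + (p 1 - q 1)^2) * h)

theorem rot_apply (c s u v : ℝ) (h : c ^ 2 + s ^ 2 = 1) (p : E2) :
    rot c s u v h p = pt (c * p 0 - s * p 1 + u) (s * p 0 + c * p 1 + v) := rfl

theorem rot_image (c s u v : ℝ) (h : c ^ 2 + s ^ 2 = 1) (A : Set E2) :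
    rot c s u v h '' A = {p | pt (c * (p 0 - u) + s * (p 1 - v)) (-s * (p 0 - u) + c * (p 1 - v)) ∈ A} := by
  rw [← IsometryEquiv.coe_toEquiv, Equiv.image_eq_preimage_symm]
  rfl

/-- The isometry placing the bottom side of the prototile on side `k` of the cell `z`:
`0` bottom, `1` right, `2` top, otherwise left. -/
noncomputable def place (k : ℕ) (z : ℤ × ℤ) : E2 ≃ᵢ E2 :=
  match k with
  | 0 => rot 1 0 z.1 z.2 (by norm_num)
  | 1 => rot 0 1 (z.1 + 1) z.2 (by norm_num)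
  | 2 => rot (-1) 0 (z.1 + 1) (z.2 + 1) (by norm_num)
  | _ => rot 0 (-1) z.1 (z.2 + 1) (by norm_num)

theorem place_cell (k : ℕ) (z : ℤ × ℤ) : place k z '' cell (0, 0) = cell z := by
  match k with
  | 0 =>
    simp only [place, rot_image]
    ext p
    simp only [cell, mem_ofPred_eq, pt_zero, pt_one, Int.cast_zero]
    constructor
    · rintro ⟨h1, h2, h3, h4⟩; refine ⟨?_, ?_, ?_, ?_⟩ <;> linarith
    · rintro ⟨h1, h2, h3, h4⟩; refine ⟨?_, ?_, ?_, ?_⟩ <;> linarith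
  | 1 =>
    simp only [place, rot_image]
    ext p
    simp only [cell, mem_ofPred_eq, pt_zero, pt_one, Int.cast_zero]
    constructor
    · rintro ⟨h1, h2, h3, h4⟩; refine ⟨?_, ?_, ?_, ?_⟩ <;> linarith
    · rintro ⟨h1, h2, h3, h4⟩; refine ⟨?_, ?_, ?_, ?_⟩ <;> linarith
  | 2 =>
    simp only [place, rot_image]
    ext p
    simp only [cell, mem_ofPred_eq, pt_zero, pt_one, Int.cast_zero]
    constructor
    · rintro ⟨h1, h2, h3, h4⟩; refine ⟨?_, ?_, ?_, ?_⟩ <;> linarith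
    · rintro ⟨h1, h2, h3, h4⟩; refine ⟨?_, ?_, ?_, ?_⟩ <;> linarith
  | (k+3) =>
    simp only [place, rot_image]
    ext p
    simp only [cell, mem_ofPred_eq, pt_zero, pt_one, Int.cast_zero]
    constructor
    · rintro ⟨h1, h2, h3, h4⟩; refine ⟨?_, ?_, ?_, ?_⟩ <;> linarith
    · rintro ⟨h1, h2, h3, h4⟩; refine ⟨?_, ?_, ?_, ?_⟩ <;> linarith

/-- side `k` of the cell `z` -/
def edge (k : ℕ) (z : ℤ × ℤ) : Set E2 :=
  match k with
  | 0 => {p | p 1 = z.2 ∧ z.1 ≤ p 0 ∧ p 0 ≤ z.1 + 1}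
  | 1 => {p | p 0 = z.1 + 1 ∧ z.2 ≤ p 1 ∧ p 1 ≤ z.2 + 1}
  | 2 => {p | p 1 = z.2 + 1 ∧ z.1 ≤ p 0 ∧ p 0 ≤ z.1 + 1}
  | _ => {p | p 0 = z.1 ∧ z.2 ≤ p 1 ∧ p 1 ≤ z.2 + 1}

theorem place_bot (k : ℕ) (z : ℤ × ℤ) : place k z '' bot = edge k z := by
  match k with
  | 0 =>
    simp only [place, rot_image]
    ext p
    simp only [bot, edge, mem_ofPred_eq, pt_zero, pt_one]
    constructor
    · rintro ⟨h1, h2, h3⟩; refine ⟨?_, ?_, ?_⟩ <;> linarith
    · rintro ⟨h1, h2, h3⟩; refine ⟨?_, ?_, ?_⟩ <;> linarith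
  | 1 =>
    simp only [place, rot_image]
    ext p
    simp only [bot, edge, mem_ofPred_eq, pt_zero, pt_one]
    constructor
    · rintro ⟨h1, h2, h3⟩; refine ⟨?_, ?_, ?_⟩ <;> linarith
    · rintro ⟨h1, h2, h3⟩; refine ⟨?_, ?_, ?_⟩ <;> linarith
  | 2 =>
    simp only [place, rot_image]
    ext p
    simp only [bot, edge, mem_ofPred_eq, pt_zero, pt_one]
    constructor
    · rintro ⟨h1, h2, h3⟩; refine ⟨?_, ?_, ?_⟩ <;> linarith
    · rintro ⟨h1, h2, h3⟩; refine ⟨?_, ?_, ?_⟩ <;> linarith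
  | (k+3) =>
    simp only [place, rot_image]
    ext p
    simp only [bot, edge, mem_ofPred_eq, pt_zero, pt_one]
    constructor
    · rintro ⟨h1, h2, h3⟩; refine ⟨?_, ?_, ?_⟩ <;> linarith
    · rintro ⟨h1, h2, h3⟩; refine ⟨?_, ?_, ?_⟩ <;> linarith

/-- The choice of the marked side in the cell with lower left corner `(a,b)`. -/
def pick (n : ℕ) (z : ℤ × ℤ) : ℕ :=
  if 2 ≤ z.1 ∧ -(z.1 - 2) ≤ z.2 ∧ z.2 ≤ z.1 - 2 then 3
  else if 1 ≤ z.2 ∧ -(z.2 - 1) ≤ z.1 ∧ z.1 ≤ z.2 then 0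
  else if z.1 ≤ -1 ∧ z.1 + 1 - n ≤ z.2 ∧ z.2 ≤ -z.1 - 1 then 1
  else if z.2 ≤ -1 ∧ z.1 ≤ -z.2 ∧ (z.2 + 1 + n ≤ z.1 ∨ 1 ≤ z.1) then 2
  else if 1 ≤ z.1 then 1
  else 3

theorem up_mem {n : ℕ} {N : ℕ} {p : E2} (h1 : p 0 = 2 + (N:ℝ)) (h2 : -(N:ℝ) ≤ p 1)
    (h3 : p 1 ≤ 1 + N) : p ∈ W n := by
  have hN : (0:ℝ) ≤ N := Nat.cast_nonneg N
  rcases h3.lt_or_eq with h | h
  · exact ⟨0, N, by norm_num, by norm_num, h1, h2, h⟩
  · exact ⟨1, N, by norm_num, by norm_num, h, by linarith, by linarith⟩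

theorem lf_mem {n : ℕ} (hn : 1 ≤ n) {N : ℕ} {p : E2} (h1 : p 1 = 1 + (N:ℝ)) (h2 : -(N:ℝ) ≤ p 0)
    (h3 : p 0 ≤ 2 + N) : p ∈ W n := by
  have hN : (0:ℝ) ≤ N := Nat.cast_nonneg N
  have hn' : (1:ℝ) ≤ n := by exact_mod_cast hn
  rcases h2.lt_or_eq with h | h
  · exact ⟨1, N, by norm_num, by norm_num, h1, h, h3⟩
  · exact ⟨2, N, by norm_num, by norm_num, h.symm, by linarith, by linarith⟩

theorem dn_mem {n : ℕ} {N : ℕ} {p : E2} (h1 : p 0 = -(N:ℝ)) (h2 : -((N:ℝ)+n) ≤ p 1)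
    (h3 : p 1 ≤ 1 + N) : p ∈ W n := by
  have hN : (0:ℝ) ≤ N := Nat.cast_nonneg N
  have hn' : (0:ℝ) ≤ n := Nat.cast_nonneg n
  rcases h2.lt_or_eq with h | h
  · exact ⟨2, N, by norm_num, by norm_num, h1, h, h3⟩
  · exact ⟨3, N, by norm_num, by norm_num, h.symm, by linarith, by linarith⟩

theorem rt_mem {n : ℕ} {N : ℕ} {p : E2} (h1 : p 1 = -((N:ℝ)+n)) (h2 : -(N:ℝ) ≤ p 0)
    (h3 : p 0 ≤ 2 + N + n) : p ∈ W n := by
  have hN : (0:ℝ) ≤ N := Nat.cast_nonneg N
  have hn' : (0:ℝ) ≤ n := Nat.cast_nonneg n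
  rcases h3.lt_or_eq with h | h
  · exact ⟨3, N, by norm_num, by norm_num, h1, h2, h⟩
  · refine ⟨0, N + n, by norm_num, by norm_num, ?_, ?_, ?_⟩ <;> push_cast <;> linarith

theorem in_mem {n : ℕ} {N : ℕ} (hNn : N < n) {p : E2} (h1 : p 1 = -(N:ℝ)) (h2 : 1 ≤ p 0)
    (h3 : p 0 ≤ 2 + N) : p ∈ W n := by
  have hN : (0:ℝ) ≤ N := Nat.cast_nonneg N
  rcases h3.lt_or_eq with h | h
  · exact ⟨4, N, by norm_num, fun _ => hNn, h1, h2, h⟩
  · exact ⟨0, N, by norm_num, by norm_num, h, by linarith, by linarith⟩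

theorem edge_sub {n : ℕ} (hn : 1 ≤ n) (z : ℤ × ℤ) : edge (pick n z) z ⊆ W n := by
  obtain ⟨a, b⟩ := z
  unfold pick
  simp only
  split_ifs with h1 h2 h3 h4 h5
  · -- left
    rintro p ⟨e1, e2, e3⟩
    simp only at e1 e2 e3
    obtain ⟨N, rfl⟩ : ∃ N : ℕ, a = 2 + N := ⟨(a-2).toNat, by omega⟩
    have f1 : -(N:ℤ) ≤ b := by omega
    have f2 : b + 1 ≤ 1 + (N:ℤ) := by omega
    have f1' : -(N:ℝ) ≤ b := by exact_mod_cast f1
    have f2' : (b:ℝ) + 1 ≤ 1 + N := by exact_mod_cast f2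
    push_cast at e1
    exact up_mem (N := N) e1 (by linarith) (by linarith)
  · rintro p ⟨e1, e2, e3⟩
    simp only at e1 e2 e3
    obtain ⟨N, rfl⟩ : ∃ N : ℕ, b = 1 + N := ⟨(b-1).toNat, by omega⟩
    have f1 : -(N:ℤ) ≤ a := by omega
    have f2 : a + 1 ≤ 2 + (N:ℤ) := by omega
    have f1' : -(N:ℝ) ≤ a := by exact_mod_cast f1
    have f2' : (a:ℝ) + 1 ≤ 2 + N := by exact_mod_cast f2
    push_cast at e1
    exact lf_mem hn (N := N) e1 (by linarith) (by linarith)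
  · rintro p ⟨e1, e2, e3⟩
    simp only at e1 e2 e3
    obtain ⟨N, rfl⟩ : ∃ N : ℕ, a = -1 - N := ⟨(-a-1).toNat, by omega⟩
    have f1 : -((N:ℤ)+n) ≤ b := by omega
    have f2 : b + 1 ≤ 1 + (N:ℤ) := by omega
    have f1' : -((N:ℝ)+n) ≤ b := by exact_mod_cast f1
    have f2' : (b:ℝ) + 1 ≤ 1 + N := by exact_mod_cast f2
    push_cast at e1
    exact dn_mem (N := N) (by linarith) (by linarith) (by linarith)
  · rintro p ⟨e1, e2, e3⟩
    simp only at e1 e2 e3
    obtain ⟨M, rfl⟩ : ∃ M : ℕ, b = -1 - M := ⟨(-b-1).toNat, by omega⟩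
    by_cases hM : n ≤ M
    · obtain ⟨N, rfl⟩ : ∃ N : ℕ, M = N + n := ⟨M - n, by omega⟩
      have f1 : -(N:ℤ) ≤ a := by push_cast at h4; omega
      have f2 : a + 1 ≤ 2 + (N:ℤ) + n := by push_cast at h4; omega
      have f1' : -(N:ℝ) ≤ a := by exact_mod_cast f1
      have f2' : (a:ℝ) + 1 ≤ 2 + N + n := by exact_mod_cast f2
      push_cast at e1
      exact rt_mem (N := N) (by linarith) (by linarith) (by linarith)
    · have f1 : 1 ≤ a := by omega
      have f2 : a + 1 ≤ 2 + (M:ℤ) := by omega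
      have f1' : (1:ℝ) ≤ a := by exact_mod_cast f1
      have f2' : (a:ℝ) + 1 ≤ 2 + M := by exact_mod_cast f2
      push_cast at e1
      exact in_mem (N := M) (by omega) (by linarith) (by linarith) (by linarith)
  · rintro p ⟨e1, e2, e3⟩
    simp only at e1 e2 e3
    obtain ⟨N, rfl⟩ : ∃ N : ℕ, a = 1 + N := ⟨(a-1).toNat, by omega⟩
    have f1 : -(N:ℤ) ≤ b := by omega
    have f2 : b + 1 ≤ 1 + (N:ℤ) := by omega
    have f1' : -(N:ℝ) ≤ b := by exact_mod_cast f1
    have f2' : (b:ℝ) + 1 ≤ 1 + N := by exact_mod_cast f2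
    push_cast at e1
    exact up_mem (N := N) (by linarith) (by linarith) (by linarith)
  · rintro p ⟨e1, e2, e3⟩
    simp only at e1 e2 e3
    obtain ⟨N, rfl⟩ : ∃ N : ℕ, a = -N := ⟨(-a).toNat, by omega⟩
    have f1 : -((N:ℤ)+n) ≤ b := by omega
    have f2 : b + 1 ≤ 1 + (N:ℤ) := by omega
    have f1' : -((N:ℝ)+n) ≤ b := by exact_mod_cast f1
    have f2' : (b:ℝ) + 1 ≤ 1 + N := by exact_mod_cast f2
    push_cast at e1
    exact dn_mem (N := N) (by linarith) (by linarith) (by linarith)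

/-- locate a real number of `[l, u]` in a unit interval with integer end points inside `[l,u]` -/
theorem locate {x : ℝ} {l u : ℤ} (hlu : l < u) (h1 : (l:ℝ) ≤ x) (h2 : x ≤ u) :
    ∃ a : ℤ, l ≤ a ∧ a + 1 ≤ u ∧ (a:ℝ) ≤ x ∧ x ≤ a + 1 := by
  rcases h2.lt_or_eq with h | h
  · refine ⟨⌊x⌋, Int.le_floor.2 h1, ?_, Int.floor_le x, (Int.lt_floor_add_one x).le⟩
    have : ⌊x⌋ < u := Int.floor_lt.2 h
    omega
  · refine ⟨u - 1, by omega, by omega, ?_, ?_⟩ <;> push_cast <;> linarith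

theorem W_sub {n : ℕ} (hn : 1 ≤ n) {p : E2} (hp : p ∈ W n) :
    ∃ z : ℤ × ℤ, p ∈ edge (pick n z) z := by
  obtain ⟨t, N, ht, h4, hp⟩ := hp
  interval_cases t
  · obtain ⟨e1, e2, e3⟩ := hp
    obtain ⟨b, hb1, hb2, hb3, hb4⟩ := locate (x := p 1) (l := -N) (u := 1 + N) (by omega)
      (by push_cast; exact e2) (by push_cast; exact e3.le)
    refine ⟨(2 + N, b), ?_⟩
    have : pick n (2 + N, b) = 3 := by
      unfold pick
      rw [if_pos]
      simp only
      omega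
    rw [this]
    refine ⟨?_, hb3, hb4⟩
    push_cast; exact e1
  · obtain ⟨e1, e2, e3⟩ := hp
    obtain ⟨a, ha1, ha2, ha3, ha4⟩ := locate (x := p 0) (l := -N) (u := 2 + N) (by omega)
      (by push_cast; exact e2.le) (by push_cast; exact e3)
    refine ⟨(a, 1 + N), ?_⟩
    have : pick n (a, 1 + N) = 0 := by
      unfold pick
      simp only
      rw [if_neg (by omega), if_pos (by omega)]
    rw [this]
    refine ⟨?_, ha3, ha4⟩
    push_cast; exact e1
  · obtain ⟨e1, e2, e3⟩ := hp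
    obtain ⟨b, hb1, hb2, hb3, hb4⟩ := locate (x := p 1) (l := -(N+n)) (u := 1 + N) (by omega)
      (by push_cast; linarith) (by push_cast; exact e3)
    refine ⟨(-1 - N, b), ?_⟩
    have : pick n (-1 - N, b) = 1 := by
      unfold pick
      simp only
      rw [if_neg (by omega), if_neg (by omega), if_pos (by omega)]
    rw [this]
    refine ⟨?_, hb3, hb4⟩
    push_cast; linarith
  · obtain ⟨e1, e2, e3⟩ := hp
    obtain ⟨a, ha1, ha2, ha3, ha4⟩ := locate (x := p 0) (l := -N) (u := 2 + N + n) (by omega)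
      (by push_cast; linarith) (by push_cast; exact e3.le)
    refine ⟨(a, -1 - (N + n)), ?_⟩
    have : pick n (a, -1 - (N + n)) = 2 := by
      unfold pick
      simp only
      rw [if_neg (by omega), if_neg (by omega), if_neg (by omega), if_pos (by omega)]
    rw [this]
    refine ⟨?_, ha3, ha4⟩
    push_cast; linarith
  · obtain ⟨e1, e2, e3⟩ := hp
    have hNn := h4 rfl
    obtain ⟨a, ha1, ha2, ha3, ha4⟩ := locate (x := p 0) (l := 1) (u := 2 + N) (by omega)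
      (by push_cast; linarith) (by push_cast; exact e3.le)
    refine ⟨(a, -1 - N), ?_⟩
    have : pick n (a, -1 - N) = 2 := by
      unfold pick
      simp only
      rw [if_neg (by omega), if_neg (by omega), if_neg (by omega), if_pos (by omega)]
    rw [this]
    refine ⟨?_, ha3, ha4⟩
    push_cast; linarith

/-- The marking: mark the bottom side of the prototile, place it on the picked sides. -/
noncomputable def spiralMarking (n : ℕ) : Marking where
  arcs := {bot}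
  finite := finite_singleton _
  isArc := by rintro A rfl; exact bot_arc
  sub := by rintro A rfl; exact bot_sub
  iso := fun z => place (pick n z) z
  maps := fun z => place_cell _ z

theorem spiralMarking_U {n : ℕ} (hn : 1 ≤ n) : (spiralMarking n).U = W n := by
  apply Subset.antisymm
  · intro p hp
    simp only [Marking.U, spiralMarking, mem_iUnion, mem_singleton_iff] at hp
    obtain ⟨z, A, rfl, hp⟩ := hp
    rw [place_bot] at hp
    exact edge_sub hn z hp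
  · intro p hp
    obtain ⟨z, hz⟩ := W_sub hn hp
    simp only [Marking.U, spiralMarking, mem_iUnion, mem_singleton_iff]
    exact ⟨z, bot, rfl, by rw [place_bot]; exact hz⟩

/-- For every positive integer `n`, the square tiling `(4^4)` admits a marking which makes it an
`n`-armed spiral. -/
theorem result : ∀ n : ℕ, 1 ≤ n → ∃ M : Marking, M.IsSpiral n := by
  intro n hn
  refine ⟨spiralMarking n, fun i => arm n i, fun i => ⟨arm_unbounded i.2, Or.inr ?_⟩,
    fun i j hij => arm_disj i.2 j.2 (fun h => hij (Fin.ext h)),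
    fun i => (arm_embed i.2).isClosed_range, ?_⟩
  · exact ⟨(arm_embed i.2).toIsEmbedding.toHomeomorph.symm⟩
  · rw [spiralMarking_U hn, arm_union hn]

end Pool.Agent.Results.MP_ca213f_co.AllArmNumbers
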